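import Mathlib
import Pool.Agent.Lib.MP_590da2_gt.Defs
import Pool.Agent.Lib.MP_590da2_gt.Par

/-!
# A nilpotent hypercomplex Lie group whose Obata connection has non-abelian holonomy algebra
-/

set_option autoImplicit false

open scoped Manifold ContDiff
open Pool.Agent.Lib.MP_590da2_gt

namespace Pool.Agent.Results.MP_590da2_gt.NonAbelianHolonomy

/-- There is a simply connected nilpotent real Lie group `G` with a left-invariant hypercomplex
structure `(J₁, J₂, J₃)` whose Obata connection has a non-abelian holonomy algebra. -/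
theorem result :
    ∃ (E : Type) (_ : NormedAddCommGroup E) (_ : NormedSpace ℝ E) (_ : FiniteDimensional ℝ E)
      (_ : CompleteSpace E) (G : Type) (_ : TopologicalSpace G) (_ : ChartedSpace E G)
      (_ : Group G) (_ : LieGroup 𝓘(ℝ, E) ω G)
      (J₁ J₂ J₃ : GroupLieAlgebra 𝓘(ℝ, E) G →ₗ[ℝ] GroupLieAlgebra 𝓘(ℝ, E) G),
      T2Space G ∧ SecondCountableTopology G ∧ SimplyConnectedSpace G ∧ Group.IsNilpotent G ∧
      IsHypercomplexStructure J₁ J₂ J₃ ∧
      ∃ S ∈ holonomyAlgebra (obata J₁ J₂ J₃), ∃ T ∈ holonomyAlgebra (obata J₁ J₂ J₃),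
        S * T ≠ T * S := by
  obtain ⟨A, _, _, _, h, a, b, c, d, hh, ha, hb, hc, hd, hne⟩ := exists_algebra
  have : CompleteSpace A := FiniteDimensional.complete ℝ A
  have : Fact (h ^ 5 = 0) := ⟨hh⟩
  have : SecondCountableTopology (Sp A) := by
    have : ProperSpace (Sp A) := FiniteDimensional.proper ℝ (Sp A)
    infer_instance
  exact ⟨Sp A, inferInstance, inferInstance, inferInstance, inferInstance, Grp A h, inferInstance,
    inferInstance, inferInstance, inferInstance, J1 h, J2 h, J3 h,
    (inferInstance : T2Space (Sp A)), (inferInstance : SecondCountableTopology (Sp A)),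
    inferInstance, isNilpotent_grp h, hypercomplex h, not_commute h ha hb hc hd hne⟩

end Pool.Agent.Results.MP_590da2_gt.NonAbelianHolonomy
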